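import Pool.Agent.helper83.SB.Spec

/-!
Row sb:ONE: the shell formula on a vertical line.
-/

set_option autoImplicit false
set_option linter.unusedVariables false

open scoped Pointwise ContDiff
open MeasureTheory Set Filter Topology

namespace Pool.Agent.helper83.SB

open Pool.Agent.helper83.SC

theorem ONE_pt_continuous {m : ℕ} (b : OrthonormalBasis (Fin (m + 1)) ℝ (E (m + 1))) (p : E m) :
    Continuous (fun s : ℝ => pt b p s) := by
  unfold pt
  exact continuous_const.add (continuous_id.smul continuous_const)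

/-- The value of `sel` at a unique minimizer. -/
theorem ONE_sel {m : ℕ} {f φ : E m → ℝ} {p y : E m} (h : IsArgmin f p y)
    (hu : ∀ y', IsArgmin f p y' → y' = y) : sel φ f p = φ y := by
  have : {z | IsArgmin f p z} = {y} := by
    ext z
    exact ⟨fun hz => hu z hz, fun hz => by rw [mem_singleton_iff.1 hz]; exact h⟩
  unfold sel
  rw [this, image_singleton, csSup_singleton]

theorem ONE_sel_zero {m : ℕ} {f φ : E m → ℝ} {p : E m} (h : ∀ y, ¬ IsArgmin f p y) :
    sel φ f p = 0 := by
  have : {z | IsArgmin f p z} = ∅ := by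
    ext z
    simp [h z]
  unfold sel
  rw [this, image_empty, Real.sSup_empty]

theorem ONE_of (hPTC : PTC_stmt) (hSHL : SHL_stmt) (hARG : ARG_stmt) (hSHA : SHA_stmt)
    (hUNQ : UNQ_stmt) (hDER : DER_stmt) : ONE_stmt := by
  intro m b K hK φ hφ ε p
  obtain ⟨hsm, -, hdm, -, -⟩ := hSHL hK ε
  obtain ⟨-, -, -, hce, hne, -, -, -, hcc, -, hcs⟩ := hPTC b
  set T : ℝ → ℝ := fun s => Metric.infDist (pt b p s) K with hT
  set ν : ℝ → E (m + 1) := fun s => dir K (pt b p s) with hν
  set R : Set ℝ := {s | pt b p s ∈ shell K ε ∧ 0 < (coord b (ν s)).2} with hR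
  have hνm : Measurable ν := hdm.comp (ONE_pt_continuous b p).measurable
  have hRm : MeasurableSet R := by
    have h1 : MeasurableSet {s : ℝ | pt b p s ∈ shell K ε} :=
      (ONE_pt_continuous b p).measurable hsm
    have h2 : MeasurableSet {s : ℝ | 0 < (coord b (ν s)).2} :=
      measurableSet_lt measurable_const ((measurable_snd.comp hcc.measurable).comp hνm)
    exact h1.inter h2
  have hpos : ∀ s ∈ R, 0 < T s := fun s hs => hs.1.1
  -- the left side
  have hL : (fun s : ℝ => (shell K ε).indicator (fun z => lift b φ (dir K z)) (pt b p s))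
      = R.indicator (fun s => |(coord b (ν s)).2| • sel φ (ft b K (T s)) p) := by
    funext s
    by_cases hs : s ∈ R
    · rw [indicator_of_mem hs, indicator_of_mem hs.1]
      obtain ⟨ha, -⟩ := hSHA b hK p s (hpos s hs) hs.2
      have hsel : sel φ (ft b K (T s)) p = φ ((coord b (ν s)).2⁻¹ • (coord b (ν s)).1) :=
        ONE_sel ha fun y' hy' => hUNQ b hK (T s) (hpos s hs) p y' _ hy' ha
      rw [hsel, abs_of_pos hs.2, smul_eq_mul]
      show tilde φ (coord b (ν s)).1 (coord b (ν s)).2 = _
      unfold tilde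
      rw [if_pos hs.2]
    · rw [indicator_of_notMem hs]
      by_cases h1 : pt b p s ∈ shell K ε
      · rw [indicator_of_mem h1]
        show tilde φ (coord b (ν s)).1 (coord b (ν s)).2 = 0
        unfold tilde
        rw [if_neg]
        intro h2
        exact hs ⟨h1, h2⟩
      · rw [indicator_of_notMem h1]
  rw [hL, integral_indicator hRm]
  -- the change of variables
  have hinj : InjOn T R := by
    intro s hs s' hs' h
    obtain ⟨ha, he⟩ := hSHA b hK p s (hpos s hs) hs.2
    obtain ⟨ha', he'⟩ := hSHA b hK p s' (hpos s' hs') hs'.2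
    have h' : Metric.infDist (pt b p s) K = Metric.infDist (pt b p s') K := h
    rw [h'] at ha he
    have h1 := ha ((coord b (dir K (pt b p s'))).2⁻¹ • (coord b (dir K (pt b p s'))).1)
    have h2 := ha' ((coord b (dir K (pt b p s))).2⁻¹ • (coord b (dir K (pt b p s))).1)
    exact he.trans ((le_antisymm h1 h2).trans he'.symm)
  have hder : ∀ s ∈ R, HasDerivWithinAt T ((coord b (ν s)).2) R s := fun s hs =>
    (hDER b hK p s (hpos s hs)).hasDerivWithinAt
  rw [← integral_image_eq_integral_abs_deriv_smul hRm hder hinj (fun t => sel φ (ft b K t) p)]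
  -- the domains
  symm
  refine setIntegral_eq_of_subset_of_forall_sdiff_eq_zero measurableSet_Ioc ?_ ?_
  · rintro t ⟨s, hs, rfl⟩
    exact ⟨hs.1.1, hs.1.2⟩
  · rintro t ⟨ht, hn⟩
    refine ONE_sel_zero fun y hy => hn ?_
    obtain ⟨h1, h2⟩ := hARG b hK t ht.1 p y hy
    refine ⟨ft b K t y - inner ℝ p y, ⟨⟨?_, ?_⟩, ?_⟩, h1⟩
    · rw [h1]; exact ht.1
    · rw [h1]; exact ht.2
    · show 0 < (coord b (dir K (pt b p (ft b K t y - inner ℝ p y)))).2
      rw [h2, hcs, hce]
      have : (0 : ℝ) < ‖emb b y‖ := lt_of_lt_of_le one_pos (hne y)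
      simpa using this

end Pool.Agent.helper83.SB
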